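import Pool.Agent.H73.GWQ.Stmts
import Pool.Agent.H40.GWT.RW2

/-!
# Row `R2Q` of the board `gwq`: few words connect the neighbourhoods of two vertices
-/

set_option autoImplicit false

open Classical

namespace GWQ

namespace R2QAux

variable {ι G V : Type*} [Fintype ι] [Group G] (C : QCode ι G V)

/-- the fifth powers of the code are different -/
theorem inj (h0 : H4QStmt C.toQM) (s t : ι) (h : C.c s ^ 5 = C.c t ^ 5) : s = t := by
  by_contra hne
  have key : ∀ s : ι, C.d 1 (C.c s) + C.d (C.c s) (C.c s ^ 5) ≤ C.d 1 (C.c s ^ 5) + C.K := by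
    intro s
    have e1 : ∀ k : ℕ, C.d (C.c s ^ k) (C.c s ^ (k + 1)) = C.d 1 (C.c s) := by
      intro k
      have := C.inv (C.c s ^ k) 1 (C.c s)
      rw [mul_one, ← pow_succ] at this
      exact this
    have a1 := e1 1
    have a2 := e1 2
    have a3 := e1 3
    have a4 := e1 4
    rw [pow_one] at a1
    have t1 := C.tri (C.c s) (C.c s ^ 2) (C.c s ^ 5)
    have t2 := C.tri (C.c s ^ 2) (C.c s ^ 3) (C.c s ^ 5)
    have t3 := C.tri (C.c s ^ 3) (C.c s ^ 4) (C.c s ^ 5)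
    have h5 := C.p5 s
    norm_num at a1 a2 a3 a4
    omega
  have k1 := key s
  have k2 := key t
  have q := h0 1 (C.c s ^ 5) (C.c s) (C.c t)
  have s1 := C.sep s t hne
  have s2 := C.sep t s (Ne.symm hne)
  have c1 := C.comm (C.c t) (C.c s)
  have c2 := C.comm (C.c s ^ 5) (C.c t)
  have c3 := C.comm (C.c s ^ 5) (C.c s)
  have hK := C.hδ
  have hK1 := C.K_pos
  rw [← h] at k2
  rcases max_cases (C.d 1 (C.c s) + C.d (C.c s ^ 5) (C.c t))
    (C.d 1 (C.c t) + C.d (C.c s ^ 5) (C.c s)) with ⟨hm, _⟩ | ⟨hm, _⟩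
  · rw [hm] at q
    omega
  · rw [hm] at q
    omega

/-- the number of code words -/
theorem card_le (h0 : H4QStmt C.toQM) {S : Type*} [Fintype S] (e : S → G) (wd : ι → List S)
    (k₀ : ℕ) (hl : ∀ s, (wd s).length = k₀) (he : ∀ s, GWP.ev e (wd s) = C.c s ^ 5) :
    C.M ^ 2 ≤ Fintype.card S ^ k₀ := by
  let f : ι → List.Vector S k₀ := fun s => ⟨wd s, hl s⟩
  have hinj : Function.Injective f := by
    intro s t h
    have h1 : wd s = wd t := congrArg Subtype.val h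
    exact inj C h0 s t (by rw [← he s, ← he t, h1])
  have h2 := Fintype.card_le_of_injective f hinj
  rwa [C.card, card_vector] at h2

end R2QAux

variable {ι G V : Type*} [Fintype ι] [Group G] (C : QCode ι G V)

theorem R2Q (S : Type*) [Fintype S] (h0 : H4QStmt C.toQM) (h1 : RWQStmt C S)
    (h2 : P2QStmt C) : R2QStmt C S := by
  intro e wd k₀ R hk hl he
  obtain ⟨A, hA, hP⟩ := h2 (2 * R + C.δ)
  have hM : (8 : ℝ) ≤ C.M := by exact_mod_cast C.M_big
  have hM2 : (0 : ℝ) < (C.M : ℝ) ^ 2 := by positivity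
  have hcard : ((C.M : ℝ)) ^ 2 ≤ (Fintype.card S : ℝ) ^ k₀ := by
    exact_mod_cast R2QAux.card_le C h0 e wd k₀ hl he
  have hq : (0 : ℝ) < (Fintype.card S : ℝ) ^ k₀ := lt_of_lt_of_le hM2 hcard
  have hδ0 : 0 < (C.M : ℝ) ^ 2 / 2 / (Fintype.card S : ℝ) ^ k₀ := by positivity
  have hδ1 : (C.M : ℝ) ^ 2 / 2 / (Fintype.card S : ℝ) ^ k₀ < 1 := by
    rw [div_lt_one hq]
    linarith
  obtain ⟨κ, k1, k2, k3⟩ := GWT.rw2_pow (1 - (C.M : ℝ) ^ 2 / 2 / (Fintype.card S : ℝ) ^ k₀)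
    (by linarith) (by linarith) k₀ hk
  have hρ : (0 : ℝ) < 1 - (C.M : ℝ) ^ 2 / 2 / (Fintype.card S : ℝ) ^ k₀ := by linarith
  refine ⟨κ, A * (1 - (C.M : ℝ) ^ 2 / 2 / (Fintype.card S : ℝ) ^ k₀)⁻¹, k1, k2,
    by positivity, ?_⟩
  intro r Q P
  have hfin : A * (Fintype.card S : ℝ) ^ r *
      (1 - (C.M : ℝ) ^ 2 / 2 / (Fintype.card S : ℝ) ^ k₀) ^ (r / k₀) ≤
      A * (1 - (C.M : ℝ) ^ 2 / 2 / (Fintype.card S : ℝ) ^ k₀)⁻¹ * κ ^ r *
        (Fintype.card S : ℝ) ^ r := by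
    have h5 : (0 : ℝ) ≤ A * (Fintype.card S : ℝ) ^ r := by positivity
    calc A * (Fintype.card S : ℝ) ^ r *
          (1 - (C.M : ℝ) ^ 2 / 2 / (Fintype.card S : ℝ) ^ k₀) ^ (r / k₀)
        ≤ A * (Fintype.card S : ℝ) ^ r *
          ((1 - (C.M : ℝ) ^ 2 / 2 / (Fintype.card S : ℝ) ^ k₀)⁻¹ * κ ^ r) :=
          mul_le_mul_of_nonneg_left (k3 r) h5
      _ = _ := by ring
  by_cases hex : ∃ (z₀ : List S) (h₀ : G), C.T.dist (C.f h₀) Q ≤ R ∧
      C.T.dist (C.f (h₀ * GWP.ev e z₀)) P ≤ R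
  · obtain ⟨z₀, h₀, hh1, hh2⟩ := hex
    have h3 := h1 e wd k₀ (fun g => if ∃ h : G, C.nm h ≤ 2 * R + C.δ ∧
        C.d (h * g) (GWP.ev e z₀) ≤ 2 * R + C.δ then (1 : ℝ) else 0) A hk hl he hA.le
      (fun g => by
        show (0 : ℝ) ≤ if _ then (1 : ℝ) else 0
        split_ifs
        · exact zero_le_one
        · exact le_refl _)
      (fun w m => hP w m (GWP.ev e z₀)) r
    refine le_trans (GWP.wsum_le r _ _ ?_) (h3.trans hfin)
    intro z _
    show (if _ then (1 : ℝ) else 0) ≤ if _ then (1 : ℝ) else 0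
    by_cases hz : ∃ h : G, C.T.dist (C.f h) Q ≤ R ∧ C.T.dist (C.f (h * GWP.ev e z)) P ≤ R
    · have hz' : ∃ h : G, C.nm h ≤ 2 * R + C.δ ∧
          C.d (h * GWP.ev e z) (GWP.ev e z₀) ≤ 2 * R + C.δ := by
        obtain ⟨h, g1, g2⟩ := hz
        refine ⟨h₀⁻¹ * h, ?_, ?_⟩
        · have i1 : C.nm (h₀⁻¹ * h) = C.d h₀ h := by
            have := C.inv h₀ 1 (h₀⁻¹ * h)
            rw [mul_one, mul_inv_cancel_left] at this
            exact this.symm
          have i2 := C.le1 h₀ h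
          have i3 := GWT.dtri C.tree (C.f h₀) Q (C.f h)
          have i4 : C.T.dist Q (C.f h) = C.T.dist (C.f h) Q := SimpleGraph.dist_comm
          omega
        · have i1 : C.d (h₀⁻¹ * h * GWP.ev e z) (GWP.ev e z₀) =
              C.d (h * GWP.ev e z) (h₀ * GWP.ev e z₀) := by
            have := C.inv h₀ (h₀⁻¹ * h * GWP.ev e z) (GWP.ev e z₀)
            rw [← mul_assoc, mul_inv_cancel_left] at this
            exact this.symm
          have i2 := C.le1 (h * GWP.ev e z) (h₀ * GWP.ev e z₀)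
          have i3 := GWT.dtri C.tree (C.f (h * GWP.ev e z)) P (C.f (h₀ * GWP.ev e z₀))
          have i4 : C.T.dist P (C.f (h₀ * GWP.ev e z₀)) = C.T.dist (C.f (h₀ * GWP.ev e z₀)) P :=
            SimpleGraph.dist_comm
          omega
      rw [if_pos hz, if_pos hz']
    · rw [if_neg hz]
      split_ifs
      · exact zero_le_one
      · exact le_refl _
  · have h4 : GWP.wsum r (fun z : List S => if ∃ h : G, C.T.dist (C.f h) Q ≤ R ∧
        C.T.dist (C.f (h * GWP.ev e z)) P ≤ R then (1 : ℝ) else 0) ≤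
        GWP.wsum r (fun _ : List S => (0 : ℝ)) := by
      refine GWP.wsum_le r _ _ ?_
      intro z _
      show (if _ then (1 : ℝ) else 0) ≤ 0
      rw [if_neg (fun hz => hex ⟨z, hz⟩)]
    have h6 : ∀ n : ℕ, GWP.wsum n (fun _ : List S => (0 : ℝ)) = 0 := by
      intro n
      induction n with
      | zero => rfl
      | succ n ih =>
        simp only [GWP.wsum]
        exact Finset.sum_eq_zero (fun _ _ => ih)
    rw [h6] at h4
    refine h4.trans ?_
    positivity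

end GWQ
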