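import Pool.Agent.H73.GWQ.Stmts3

/-! Project GWQ, row TPW: a coarse path in a tree passes near every vertex of the geodesic. -/

set_option autoImplicit false

open Classical

universe u v

namespace GWQ

theorem TPW (V : Type u) (W : Type v) : TPWStmt V W := by
  intro X T hT F E hE u v p
  induction p with
  | nil =>
    intro t ht
    refine ⟨_, SimpleGraph.Walk.start_mem_support _, ?_⟩
    unfold GWT.Bt at ht
    rw [SimpleGraph.dist_self] at ht
    omega
  | cons h q ih =>
    intro t ht
    rename_i a b c
    by_cases hb : GWT.Bt T (F b) t (F c)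
    · obtain ⟨w, hw, hd⟩ := ih t hb
      exact ⟨w, by rw [SimpleGraph.Walk.support_cons]; exact List.mem_cons_of_mem _ hw, hd⟩
    · have h1 := GWT.SID hT ht hb
      refine ⟨a, SimpleGraph.Walk.start_mem_support _, ?_⟩
      have h2 := hE a b h
      unfold GWT.Bt at h1
      omega

end GWQ
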